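import Pool.Agent.Helper23.MV.StP

/-!
# Project MV, module GG: mean square of `GO` over the good frequencies
-/

set_option autoImplicit false

namespace Pool.Agent.Helper46.MV

open Pool.Agent.Helper23.MV
open Finset ArithmeticFunction MeasureTheory
open Pool.Agent.Helper48.BK (ex th Sx Apx)
open Pool.Agent.Helper2.MR (ch)
open Pool.Agent.Helper15.AB (IsW)
open Pool.Agent.Helper23.GK (GA PP AA cmu)

private theorem cpow_gg (m : ℕ) (hm : 1 ≤ m) (δ t : ℝ) :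
    (m : ℂ) ^ (-1 - ((δ : ℂ) + t * Complex.I)) = (((m : ℝ) ^ (-δ) : ℝ) : ℂ) / m * ch t m := by
  have hm0 : (m : ℂ) ≠ 0 := by exact_mod_cast (by omega : m ≠ 0)
  have hmr : (0 : ℝ) ≤ m := Nat.cast_nonneg m
  have e1 : (-1 - ((δ : ℂ) + t * Complex.I)) = (-1 : ℂ) + ((-δ : ℝ) : ℂ) + (-(t * Complex.I)) := by
    push_cast; ring
  rw [e1, Complex.cpow_add _ _ hm0, Complex.cpow_add _ _ hm0, Complex.cpow_neg_one]
  have e2 : (m : ℂ) ^ (-(t * Complex.I)) = ch t m := by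
    rw [Complex.cpow_def_of_ne_zero hm0, ch]
    congr 1
    rw [Complex.natCast_log.symm]
    push_cast
    ring
  have e3 : (m : ℂ) ^ (((-δ : ℝ) : ℂ)) = (((m : ℝ) ^ (-δ) : ℝ) : ℂ) := by
    rw [Complex.ofReal_cpow hmr]
    simp
  rw [e2, e3]
  ring

private theorem sumw_gg {w : ℝ → ℝ} {C : ℝ}
    (h1 : ∀ z : ℂ, z.re ≤ 1 → ‖wh w z‖ ≤ C / (1 + ‖z‖ ^ 2))
    (h3 : ∀ (X : ℕ) (s : ℂ), 1 ≤ X → 0 ≤ s.re → s.re ≤ 1 →
      ‖∑ m ∈ Icc 1 (3 * X), ((w (Real.log (m / X)) : ℝ) : ℂ) * (m : ℂ) ^ (-1 - s) -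
        (X : ℂ) ^ (-s) * wh w (-s)‖ ≤ C * (1 + ‖s‖) / X)
    (hC : 1 ≤ C) (X : ℕ) (hX : 1 ≤ X) (δ t : ℝ) (hδ0 : 0 ≤ δ) (hδ1 : δ ≤ 1) :
    ‖∑ m ∈ Icc 1 (3 * X), ((w (Real.log (m / X)) : ℝ) : ℂ) *
      ((((m : ℝ) ^ (-δ) : ℝ) : ℂ) / m * ch t m)‖ ≤ C / (1 + t ^ 2) + C * (2 + |t|) / X := by
  have hXr : (1 : ℝ) ≤ X := by exact_mod_cast hX
  set s : ℂ := (δ : ℂ) + t * Complex.I with hs
  have hsre : s.re = δ := by simp [hs]
  have hsim : s.im = t := by simp [hs]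
  have e : ∑ m ∈ Icc 1 (3 * X), ((w (Real.log (m / X)) : ℝ) : ℂ) *
      ((((m : ℝ) ^ (-δ) : ℝ) : ℂ) / m * ch t m) =
      ∑ m ∈ Icc 1 (3 * X), ((w (Real.log (m / X)) : ℝ) : ℂ) * (m : ℂ) ^ (-1 - s) := by
    refine Finset.sum_congr rfl fun m hm => ?_
    rw [← cpow_gg m (Finset.mem_Icc.1 hm).1 δ t]
  rw [e]
  have hns : ‖s‖ ≤ 1 + |t| := by
    have := Complex.norm_le_abs_re_add_abs_im s
    rw [hsre, hsim, abs_of_nonneg hδ0] at this
    linarith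
  have hts : |t| ≤ ‖s‖ := by
    have := Complex.abs_im_le_norm s
    rwa [hsim] at this
  have hA := h3 X s hX (by rw [hsre]; exact hδ0) (by rw [hsre]; exact hδ1)
  have hB := h1 (-s) (by rw [Complex.neg_re, hsre]; linarith)
  have hC' : ‖(X : ℂ) ^ (-s)‖ ≤ 1 := by
    rw [Complex.norm_natCast_cpow_of_pos (by omega)]
    refine Real.rpow_le_one_of_one_le_of_nonpos hXr ?_
    rw [Complex.neg_re, hsre]; linarith
  have hD : ‖(X : ℂ) ^ (-s) * wh w (-s)‖ ≤ C / (1 + t ^ 2) := by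
    rw [norm_mul]
    have h5 : C / (1 + ‖-s‖ ^ 2) ≤ C / (1 + t ^ 2) := by
      rw [norm_neg]
      apply div_le_div_of_nonneg_left (by linarith) (by positivity)
      have : t ^ 2 ≤ ‖s‖ ^ 2 := by
        rw [← sq_abs t]
        exact pow_le_pow_left₀ (abs_nonneg t) hts 2
      linarith
    calc ‖(X : ℂ) ^ (-s)‖ * ‖wh w (-s)‖ ≤ 1 * ‖wh w (-s)‖ :=
          mul_le_mul_of_nonneg_right hC' (norm_nonneg _)
      _ ≤ C / (1 + t ^ 2) := by rw [one_mul]; exact hB.trans h5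
  have hE : C * (1 + ‖s‖) / X ≤ C * (2 + |t|) / X := by
    apply div_le_div_of_nonneg_right _ (by linarith)
    apply mul_le_mul_of_nonneg_left _ (by linarith)
    linarith
  calc ‖∑ m ∈ Icc 1 (3 * X), ((w (Real.log (m / X)) : ℝ) : ℂ) * (m : ℂ) ^ (-1 - s)‖
      = ‖(∑ m ∈ Icc 1 (3 * X), ((w (Real.log (m / X)) : ℝ) : ℂ) * (m : ℂ) ^ (-1 - s) -
        (X : ℂ) ^ (-s) * wh w (-s)) + (X : ℂ) ^ (-s) * wh w (-s)‖ := by rw [sub_add_cancel]
    _ ≤ C * (1 + ‖s‖) / X + C / (1 + t ^ 2) := (norm_add_le _ _).trans (add_le_add hA hD)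
    _ ≤ _ := by linarith

open Classical in
private noncomputable def exw (o : Option (PCh × ℝ)) (c : PCh) (u : ℝ) : ℝ :=
  match o with
    | none => 0
    | some (e, δ) => if c = e then u ^ (-δ) else 0

open Classical in
private theorem mwt_gg (o : Option (PCh × ℝ)) (c : PCh) (u : ℝ) :
    mwt o c u = (if c.χ = 1 then 1 else 0) - exw o c u := rfl

private theorem diff_gg {w : ℝ → ℝ} {C : ℝ}
    (h1 : ∀ z : ℂ, z.re ≤ 1 → ‖wh w z‖ ≤ C / (1 + ‖z‖ ^ 2))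
    (h3 : ∀ (X : ℕ) (s : ℂ), 1 ≤ X → 0 ≤ s.re → s.re ≤ 1 →
      ‖∑ m ∈ Icc 1 (3 * X), ((w (Real.log (m / X)) : ℝ) : ℂ) * (m : ℂ) ^ (-1 - s) -
        (X : ℂ) ^ (-s) * wh w (-s)‖ ≤ C * (1 + ‖s‖) / X)
    (hC : 1 ≤ C) (X : ℕ) (hX : 1 ≤ X) (o : Option (PCh × ℝ)) (c : PCh) (η : ℝ) (hη : η ≤ 1)
    (ho : OKb o η) (t : ℝ) :
    ‖GO o c w X t - GA w c.χ X t‖ ≤ 2 * (C / (1 + t ^ 2) + C * (2 + |t|) / X) := by
  classical
  set B : ℝ := C / (1 + t ^ 2) + C * (2 + |t|) / X with hB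
  have hXr : (1 : ℝ) ≤ X := by exact_mod_cast hX
  have hB0 : 0 ≤ B := by
    have : 0 ≤ |t| := abs_nonneg t
    positivity
  have hdiff : GO o c w X t - GA w c.χ X t =
      -∑ m ∈ Icc 1 (3 * X), ((w (Real.log (m / X)) : ℝ) : ℂ) *
        (((mwt o c m : ℝ) : ℂ) / m * ch t m) := by
    unfold GO GA
    rw [← Finset.sum_sub_distrib, ← Finset.sum_neg_distrib]
    refine Finset.sum_congr rfl fun m hm => ?_
    unfold gm PCh.ev
    push_cast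
    ring
  rw [hdiff, norm_neg]
  have h0 := sumw_gg h1 h3 hC X hX 0 t le_rfl zero_le_one
  have hfirst : ‖∑ m ∈ Icc 1 (3 * X), ((w (Real.log (m / X)) : ℝ) : ℂ) *
      ((((if c.χ = 1 then 1 else 0 : ℝ)) : ℂ) / m * ch t m)‖ ≤ B := by
    by_cases hc : c.χ = 1
    · simp only [hc, if_true]
      simpa using h0
    · simp only [hc, if_false]
      simpa using hB0
  have hsecond : ‖∑ m ∈ Icc 1 (3 * X), ((w (Real.log (m / X)) : ℝ) : ℂ) *
      (((exw o c m : ℝ) : ℂ) / m * ch t m)‖ ≤ B := by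
    rcases o with _ | ⟨e, δ⟩
    · simpa [exw] using hB0
    · obtain ⟨-, hδ0, hδ1, -⟩ := ho e δ rfl
      by_cases hc : c = e
      · simp only [exw, hc, if_true]
        exact sumw_gg h1 h3 hC X hX δ t hδ0.le (hδ1.trans hη)
      · simp only [exw, hc, if_false]
        simpa using hB0
  have hsplit : ∑ m ∈ Icc 1 (3 * X), ((w (Real.log (m / X)) : ℝ) : ℂ) *
        (((mwt o c m : ℝ) : ℂ) / m * ch t m) =
      ∑ m ∈ Icc 1 (3 * X), ((w (Real.log (m / X)) : ℝ) : ℂ) *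
      ((((if c.χ = 1 then 1 else 0 : ℝ)) : ℂ) / m * ch t m) -
      ∑ m ∈ Icc 1 (3 * X), ((w (Real.log (m / X)) : ℝ) : ℂ) *
      (((exw o c m : ℝ) : ℂ) / m * ch t m) := by
    rw [← Finset.sum_sub_distrib]
    refine Finset.sum_congr rfl fun m hm => ?_
    rw [mwt_gg]
    push_cast
    ring
  rw [hsplit]
  calc _ ≤ B + B := (norm_sub_le _ _).trans (add_le_add hfirst hsecond)
    _ = 2 * B := by ring

private theorem contGA_gg (w : ℝ → ℝ) (c : PCh) (X : ℕ) :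
    Continuous fun t : ℝ => GA w c.χ X t := by
  unfold GA ch
  fun_prop

private theorem contGO_gg (o : Option (PCh × ℝ)) (c : PCh) (w : ℝ → ℝ) (X : ℕ) :
    Continuous fun t : ℝ => GO o c w X t := by
  unfold GO ch
  fun_prop

private theorem closedGd_gg (c : PCh) (η : ℝ) (X : ℕ) : IsClosed (Gd c η X) := by
  have e : Gd c η X = {t : ℝ | (X : ℝ) ^ (η / 10) ≤ |t|} ∩ ({t : ℝ | |t| ≤ (X : ℝ) ^ (1 / 2 + η / 400)} ∩
      ⋂ ρ ∈ ZF c (2 * η) X, {t : ℝ | (X : ℝ) ^ (η / 10) ≤ |ρ.im - t|}) := by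
    ext t
    simp [Gd]
  rw [e]
  refine IsClosed.inter (isClosed_le continuous_const continuous_abs)
    (IsClosed.inter (isClosed_le continuous_abs continuous_const) ?_)
  refine isClosed_biInter fun ρ hρ => isClosed_le continuous_const (by fun_prop)

theorem hGg : StWhb → StHg → StGg := by
  intro hWhb hHg w hw
  obtain ⟨C, hC, h1, -, h3⟩ := hWhb w hw
  obtain ⟨η₁, hη₁, hη₁', hH⟩ := hHg w hw
  refine ⟨η₁, hη₁, hη₁', fun η hη hηη => ?_⟩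
  obtain ⟨X0, hX0, hH⟩ := hH η hη hηη
  -- asymptotics
  have hη1 : η ≤ 1 / 100 := hηη.trans hη₁'
  have hlim : Filter.Tendsto (fun X : ℕ => 2 * (X : ℝ) ^ (-(η / 50 - η / 60)) +
      64 * C ^ 2 * (X : ℝ) ^ (-(η / 5 - η / 60)) + 288 * C ^ 2 * (X : ℝ) ^ (-(1 / 2 - 3 * η / 400 - η / 60)))
      Filter.atTop (nhds (2 * 0 + 64 * C ^ 2 * 0 + 288 * C ^ 2 * 0)) := by
    have hz : ∀ y : ℝ, 0 < y → Filter.Tendsto (fun X : ℕ => (X : ℝ) ^ (-y)) Filter.atTop (nhds 0) :=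
      fun y hy => (tendsto_rpow_neg_atTop hy).comp tendsto_natCast_atTop_atTop
    refine Filter.Tendsto.add (Filter.Tendsto.add ((hz _ ?_).const_mul _) ((hz _ ?_).const_mul _))
      ((hz _ ?_).const_mul _)
    · linarith
    · linarith
    · linarith
  have hlim' : ∀ᶠ X : ℕ in Filter.atTop, 2 * (X : ℝ) ^ (-(η / 50 - η / 60)) +
      64 * C ^ 2 * (X : ℝ) ^ (-(η / 5 - η / 60)) +
      288 * C ^ 2 * (X : ℝ) ^ (-(1 / 2 - 3 * η / 400 - η / 60)) ≤ 1 := by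
    refine (hlim.eventually (gt_mem_nhds (by norm_num : (2 * 0 + 64 * C ^ 2 * 0 + 288 * C ^ 2 * 0 : ℝ) < 1))).mono
      fun X hX => le_of_lt hX
  obtain ⟨X1, hX1⟩ := Filter.eventually_atTop.1 hlim'
  refine ⟨max X0 X1, le_max_of_le_left hX0, fun X o c hX ho hc => ?_⟩
  have hXX0 : X0 ≤ X := (le_max_left _ _).trans hX
  have hXX1 : X1 ≤ X := (le_max_right _ _).trans hX
  have hX2 : 2 ≤ X := hX0.trans hXX0
  have hXr : (2 : ℝ) ≤ X := by exact_mod_cast hX2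
  have hXpos : (0 : ℝ) < X := by linarith
  have hHX := hH X c hXX0 hc
  have hbig := hX1 X hXX1
  -- measurability
  have hmeas : MeasurableSet (Gd c η X) := (closedGd_gg c η X).measurableSet
  set T : ℝ := (X : ℝ) ^ (1 / 2 + η / 400) with hT
  have hT0 : 0 < T := Real.rpow_pos_of_pos hXpos _
  have hT1 : 1 ≤ T := Real.one_le_rpow (by linarith) (by linarith)
  have hsub : Gd c η X ⊆ Set.Icc (-T) T := by
    intro t ht
    exact abs_le.1 ht.2.1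
  have hvol : volume.real (Gd c η X) ≤ 2 * T := by
    have h := measureReal_mono hsub (by rw [Real.volume_Icc]; exact ENNReal.ofReal_ne_top)
    have h2 : volume.real (Set.Icc (-T) T) = 2 * T := by
      rw [Real.volume_real_Icc_of_le (by linarith)]; ring
    linarith
  have hfin : volume (Gd c η X) ≠ ⊤ := by
    refine ne_top_of_le_ne_top ?_ (measure_mono hsub)
    rw [Real.volume_Icc]; exact ENNReal.ofReal_ne_top
  have hcomp : ∀ f : ℝ → ℝ, Continuous f → IntegrableOn f (Gd c η X) := fun f hf =>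
    (hf.integrableOn_Icc (a := -T) (b := T)).mono_set hsub
  have hiGA : IntegrableOn (fun t => ‖GA w c.χ X t‖ ^ 2) (Gd c η X) :=
    hcomp _ ((contGA_gg w c X).norm.pow 2)
  have hiGO : IntegrableOn (fun t => ‖GO o c w X t‖ ^ 2) (Gd c η X) :=
    hcomp _ ((contGO_gg o c w X).norm.pow 2)
  have hi1 : IntegrableOn (fun t : ℝ => (1 + t ^ 2)⁻¹) (Gd c η X) :=
    integrable_inv_one_add_sq.integrableOn
  -- pointwise bound
  set K : ℝ := 144 * C ^ 2 * (X : ℝ) ^ (2 * (1 / 2 + η / 400) - 2) with hK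
  have hpt : ∀ t ∈ Gd c η X, ‖GO o c w X t‖ ^ 2 ≤ 2 * ‖GA w c.χ X t‖ ^ 2 +
      (16 * C ^ 2 * (X : ℝ) ^ (-(η / 5)) * (1 + t ^ 2)⁻¹ + K) := by
    intro t ht
    have hd := diff_gg h1 h3 hC X (by omega) o c η (by linarith) ho t
    set D : ℝ := ‖GO o c w X t - GA w c.χ X t‖ with hD
    have htri : ‖GO o c w X t‖ ≤ ‖GA w c.χ X t‖ + D := by
      have := norm_add_le (GA w c.χ X t) (GO o c w X t - GA w c.χ X t)
      rwa [add_sub_cancel] at this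
    have hsq : ‖GO o c w X t‖ ^ 2 ≤ 2 * ‖GA w c.χ X t‖ ^ 2 + 2 * D ^ 2 := by
      have h0 : 0 ≤ ‖GO o c w X t‖ := norm_nonneg _
      nlinarith [sq_nonneg (‖GA w c.χ X t‖ - D), norm_nonneg (GA w c.χ X t), norm_nonneg (GO o c w X t - GA w c.χ X t)]
    have hD0 : 0 ≤ D := norm_nonneg _
    set a : ℝ := C / (1 + t ^ 2) with ha
    set b : ℝ := C * (2 + |t|) / X with hb
    have ha0 : 0 ≤ a := by positivity
    have hb0 : 0 ≤ b := by
      have : 0 ≤ |t| := abs_nonneg t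
      positivity
    have hDsq : 2 * D ^ 2 ≤ 16 * a ^ 2 + 16 * b ^ 2 := by
      have : D ^ 2 ≤ (2 * (a + b)) ^ 2 := pow_le_pow_left₀ hD0 hd 2
      nlinarith [sq_nonneg (a - b)]
    have ht1 : (X : ℝ) ^ (η / 10) ≤ |t| := ht.1
    have ht2 : |t| ≤ T := ht.2.1
    have hqa : (X : ℝ) ^ (η / 5) ≤ 1 + t ^ 2 := by
      have h5 : (X : ℝ) ^ (η / 5) = ((X : ℝ) ^ (η / 10)) ^ 2 := by
        rw [← Real.rpow_natCast, ← Real.rpow_mul hXpos.le]
        congr 1; push_cast; ring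
      have h6 : ((X : ℝ) ^ (η / 10)) ^ 2 ≤ |t| ^ 2 :=
        pow_le_pow_left₀ (Real.rpow_nonneg hXpos.le _) ht1 2
      rw [sq_abs] at h6
      rw [h5]; linarith
    have ha2 : a ^ 2 ≤ C ^ 2 * (X : ℝ) ^ (-(η / 5)) * (1 + t ^ 2)⁻¹ := by
      have hp : 0 < (X : ℝ) ^ (η / 5) := Real.rpow_pos_of_pos hXpos _
      have h7 : (1 + t ^ 2)⁻¹ ≤ (X : ℝ) ^ (-(η / 5)) := by
        rw [Real.rpow_neg hXpos.le]
        exact inv_anti₀ hp hqa
      have h8 : a ^ 2 = C ^ 2 * (1 + t ^ 2)⁻¹ * (1 + t ^ 2)⁻¹ := by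
        rw [ha, div_eq_mul_inv]; ring
      rw [h8]
      apply mul_le_mul_of_nonneg_right _ (by positivity)
      exact mul_le_mul_of_nonneg_left h7 (by positivity)
    have hb2 : b ^ 2 ≤ 9 * C ^ 2 * (X : ℝ) ^ (2 * (1 / 2 + η / 400) - 2) := by
      have h9 : b ≤ C * (3 * T) / X := by
        apply div_le_div_of_nonneg_right _ hXpos.le
        apply mul_le_mul_of_nonneg_left _ (by linarith)
        linarith
      have h10 : b ^ 2 ≤ (C * (3 * T) / X) ^ 2 := pow_le_pow_left₀ hb0 h9 2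
      have h11 : (C * (3 * T) / X) ^ 2 = 9 * C ^ 2 * (T ^ 2 / (X : ℝ) ^ 2) := by
        field_simp; ring
      have h12 : T ^ 2 / (X : ℝ) ^ 2 = (X : ℝ) ^ (2 * (1 / 2 + η / 400) - 2) := by
        have h13 : T ^ 2 = (X : ℝ) ^ (2 * (1 / 2 + η / 400)) := by
          rw [hT, ← Real.rpow_natCast, ← Real.rpow_mul hXpos.le]
          congr 1; push_cast; ring
        rw [Real.rpow_sub hXpos, h13, Real.rpow_two]
      rw [h11, h12] at h10
      exact h10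
    have : K = 16 * (9 * C ^ 2 * (X : ℝ) ^ (2 * (1 / 2 + η / 400) - 2)) := by rw [hK]; ring
    calc ‖GO o c w X t‖ ^ 2 ≤ 2 * ‖GA w c.χ X t‖ ^ 2 + 2 * D ^ 2 := hsq
      _ ≤ 2 * ‖GA w c.χ X t‖ ^ 2 + (16 * a ^ 2 + 16 * b ^ 2) := by linarith
      _ ≤ _ := by rw [this]; nlinarith
  have hi2 : IntegrableOn (fun t : ℝ => 16 * C ^ 2 * (X : ℝ) ^ (-(η / 5)) * (1 + t ^ 2)⁻¹)
      (Gd c η X) := hi1.const_mul _
  have hi3 : IntegrableOn (fun _ : ℝ => K) (Gd c η X) := integrableOn_const hfin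
  have hint : ∫ t in Gd c η X, ‖GO o c w X t‖ ^ 2 ≤ ∫ t in Gd c η X, (2 * ‖GA w c.χ X t‖ ^ 2 +
      (16 * C ^ 2 * (X : ℝ) ^ (-(η / 5)) * (1 + t ^ 2)⁻¹ + K)) :=
    setIntegral_mono_on hiGO ((hiGA.const_mul 2).add (hi2.add hi3)) hmeas hpt
  have hval : ∫ t in Gd c η X, (2 * ‖GA w c.χ X t‖ ^ 2 +
      (16 * C ^ 2 * (X : ℝ) ^ (-(η / 5)) * (1 + t ^ 2)⁻¹ + K)) =
      2 * (∫ t in Gd c η X, ‖GA w c.χ X t‖ ^ 2) +
      (16 * C ^ 2 * (X : ℝ) ^ (-(η / 5)) * (∫ t in Gd c η X, (1 + t ^ 2)⁻¹) +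
        volume.real (Gd c η X) * K) := by
    have q1 := integral_add (hiGA.const_mul 2) (hi2.add hi3)
    simp only [Pi.add_apply] at q1
    rw [q1, integral_add hi2 hi3,
      integral_const_mul, integral_const_mul, setIntegral_const, smul_eq_mul]
  have hpi : ∫ t in Gd c η X, (1 + t ^ 2)⁻¹ ≤ 4 := by
    have h := setIntegral_le_integral (s := Gd c η X) integrable_inv_one_add_sq
      (Filter.Eventually.of_forall fun x : ℝ => by positivity)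
    rw [integral_univ_inv_one_add_sq] at h
    linarith [Real.pi_lt_d2]
  have hK0 : 0 ≤ K := by positivity
  have hX60 : 0 < (X : ℝ) ^ (-(η / 60)) := Real.rpow_pos_of_pos hXpos _
  have hr1 : (X : ℝ) ^ (-(η / 50)) = (X : ℝ) ^ (-(η / 50 - η / 60)) * (X : ℝ) ^ (-(η / 60)) := by
    rw [← Real.rpow_add hXpos]; congr 1; ring
  have hr2 : (X : ℝ) ^ (-(η / 5)) = (X : ℝ) ^ (-(η / 5 - η / 60)) * (X : ℝ) ^ (-(η / 60)) := by
    rw [← Real.rpow_add hXpos]; congr 1; ring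
  have hr3 : T * (X : ℝ) ^ (2 * (1 / 2 + η / 400) - 2) =
      (X : ℝ) ^ (-(1 / 2 - 3 * η / 400 - η / 60)) * (X : ℝ) ^ (-(η / 60)) := by
    rw [hT, ← Real.rpow_add hXpos, ← Real.rpow_add hXpos]; congr 1; ring
  have hfinal : 2 * (X : ℝ) ^ (-(η / 50)) + (16 * C ^ 2 * (X : ℝ) ^ (-(η / 5)) * 4 + 2 * T * K) ≤
      (X : ℝ) ^ (-(η / 60)) := by
    have e1 : 2 * (X : ℝ) ^ (-(η / 50)) + (16 * C ^ 2 * (X : ℝ) ^ (-(η / 5)) * 4 + 2 * T * K) =
        (2 * (X : ℝ) ^ (-(η / 50 - η / 60)) +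
        64 * C ^ 2 * (X : ℝ) ^ (-(η / 5 - η / 60)) +
        288 * C ^ 2 * (X : ℝ) ^ (-(1 / 2 - 3 * η / 400 - η / 60))) * (X : ℝ) ^ (-(η / 60)) := by
      have : 2 * T * K = 288 * C ^ 2 * (T * (X : ℝ) ^ (2 * (1 / 2 + η / 400) - 2)) := by
        rw [hK]; ring
      rw [this, hr3, hr1, hr2]; ring
    rw [e1]
    calc _ ≤ 1 * (X : ℝ) ^ (-(η / 60)) := mul_le_mul_of_nonneg_right hbig hX60.le
      _ = _ := one_mul _
  have h16 : 0 ≤ 16 * C ^ 2 * (X : ℝ) ^ (-(η / 5)) := by positivity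
  calc ∫ t in Gd c η X, ‖GO o c w X t‖ ^ 2 ≤ _ := hint
    _ = _ := hval
    _ ≤ 2 * (X : ℝ) ^ (-(η / 50)) + (16 * C ^ 2 * (X : ℝ) ^ (-(η / 5)) * 4 + 2 * T * K) := by
        have a1 : 2 * (∫ t in Gd c η X, ‖GA w c.χ X t‖ ^ 2) ≤ 2 * (X : ℝ) ^ (-(η / 50)) := by linarith
        have a2 : 16 * C ^ 2 * (X : ℝ) ^ (-(η / 5)) * (∫ t in Gd c η X, (1 + t ^ 2)⁻¹) ≤
            16 * C ^ 2 * (X : ℝ) ^ (-(η / 5)) * 4 := mul_le_mul_of_nonneg_left hpi h16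
        have a3 : volume.real (Gd c η X) * K ≤ 2 * T * K := mul_le_mul_of_nonneg_right hvol hK0
        linarith
    _ ≤ _ := hfinal

end Pool.Agent.Helper46.MV
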